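import Pool.Agent.MQG.StmtsC
import Pool.Agent.MQG.Gauss

set_option autoImplicit false

/-!
# Row TLA: three lines, construction of `τ_z(a)` on the strip
-/

namespace Pool.Agent.MQG.H34

open scoped InnerProductSpace InnerProduct Topology ComplexConjugate
open Complex Filter

variable {ι : Type}

theorem norm_shift {V : ℝ → Op ι} (hV : IsGroup V) {f : ℂ → L2 ι} (hf : Traj V f) (x : ℝ)
    (w : ℂ) : ‖f (x + w)‖ = ‖f w‖ := by
  rw [hf.shift_real hV, hV.norm_apply]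

theorem bound {V : ℝ → Op ι} (hV : IsGroup V) (a : Op ι) (C s : ℝ) (hs : 0 < s) (haC : ‖a‖ ≤ C)
    (h : ∀ f g : ℂ → L2 ι, Traj V f → Traj V g →
      ‖⟪f (I * s), a (g (-(I * s)))⟫_ℂ‖ ≤ C * ‖f 0‖ * ‖g 0‖) {f g : ℂ → L2 ι}
    (hf : Traj V f) (hg : Traj V g) {z : ℂ} (hz : 0 ≤ z.im) (hz' : z.im ≤ s) :
    ‖⟪f (-(conj z)), a (g (-z))⟫_ℂ‖ ≤ C * ‖f 0‖ * ‖g 0‖ := by
  have hd : Differentiable ℂ fun z => ⟪f (-(conj z)), a (g (-z))⟫_ℂ := by
    have h1 : Differentiable ℂ fun w : ℂ => f (-w) := hf.1.comp differentiable_id.neg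
    have h2 : Differentiable ℂ fun w : ℂ => a (g (-w)) :=
      a.differentiable.comp (hg.1.comp differentiable_id.neg)
    exact inner_differentiable h1 h2
  obtain ⟨A, hA⟩ : ∃ A, ∀ y ∈ Set.Icc (0 : ℝ) s, ‖f (I * y)‖ ≤ A := by
    have hc : ContinuousOn (fun y : ℝ => f (I * y)) (Set.Icc 0 s) :=
      (hf.1.continuous.comp (by fun_prop)).continuousOn
    exact isCompact_Icc.exists_bound_of_continuousOn hc
  obtain ⟨B, hB⟩ : ∃ B, ∀ y ∈ Set.Icc (0 : ℝ) s, ‖g (-(I * y))‖ ≤ B := by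
    have hc : ContinuousOn (fun y : ℝ => g (-(I * y))) (Set.Icc 0 s) :=
      (hg.1.continuous.comp (by fun_prop)).continuousOn
    exact isCompact_Icc.exists_bound_of_continuousOn hc
  have hA0 : 0 ≤ A := (norm_nonneg _).trans (hA 0 ⟨le_rfl, hs.le⟩)
  have key : ∀ u v : L2 ι, ‖⟪u, a v⟫_ℂ‖ ≤ ‖u‖ * (‖a‖ * ‖v‖) := fun u v =>
    (norm_inner_le_norm u (a v)).trans
      (mul_le_mul_of_nonneg_left (a.le_opNorm v) (norm_nonneg u))
  have hfz : ∀ z : ℂ, ‖f (-(conj z))‖ = ‖f (I * z.im)‖ := fun z => by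
    have h1 : -(conj z) = ((-z.re : ℝ) : ℂ) + I * z.im := by
      apply Complex.ext <;> simp
    rw [h1, norm_shift hV hf]
  have hgz : ∀ z : ℂ, ‖g (-z)‖ = ‖g (-(I * z.im))‖ := fun z => by
    have h1 : -z = ((-z.re : ℝ) : ℂ) + -(I * z.im) := by
      apply Complex.ext <;> simp
    rw [h1, norm_shift hV hg]
  refine three_lines (C := A * (‖a‖ * B)) hs hd.diffContOnCl (fun z h1 h2 => ?_) (fun t => ?_)
    (fun t => ?_) hz hz'
  · refine (key _ _).trans ?_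
    rw [hfz, hgz]
    exact mul_le_mul (hA _ ⟨h1, h2⟩)
      (mul_le_mul_of_nonneg_left (hB _ ⟨h1, h2⟩) (norm_nonneg a)) (by positivity) hA0
  · refine (key _ _).trans ?_
    rw [hfz, hgz]
    simp only [ofReal_im, ofReal_zero, mul_zero, neg_zero]
    calc ‖f 0‖ * (‖a‖ * ‖g 0‖) ≤ ‖f 0‖ * (C * ‖g 0‖) := by gcongr
      _ = C * ‖f 0‖ * ‖g 0‖ := by ring
  · have h3 := h _ _ (hf.shift hV ((-t : ℝ) : ℂ)) (hg.shift hV ((-t : ℝ) : ℂ))
    have h4 : -(conj ((t : ℂ) + s * I)) = I * s + ((-t : ℝ) : ℂ) := by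
      apply Complex.ext <;> simp
    have h5 : -((t : ℂ) + s * I) = -(I * s) + ((-t : ℝ) : ℂ) := by
      apply Complex.ext <;> simp
    rw [h4, h5]
    refine h3.trans (le_of_eq ?_)
    have h6 : ‖f (0 + ((-t : ℝ) : ℂ))‖ = ‖f 0‖ := by
      rw [add_comm, norm_shift hV hf]
    have h7 : ‖g (0 + ((-t : ℝ) : ℂ))‖ = ‖g 0‖ := by
      rw [add_comm, norm_shift hV hg]
    rw [h6, h7]

/-- the operators before the limit -/
noncomputable def Fn {V : ℝ → Op ι} (hV : IsGroup V) (a : Op ι) (n : ℕ) (z : ℂ) (ξ η : L2 ι) : ℂ :=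
  ⟪hV.gauss n (-(conj z)) ξ, a (hV.gauss n (-z) η)⟫_ℂ

/-- a bounded sequence of sesquilinear forms has a limit along an ultrafilter -/
theorem exists_limit (φ : ℕ → L2 ι → L2 ι → ℂ) (C : ℝ) (hC : 0 ≤ C)
    (hb : ∀ n ξ η, ‖φ n ξ η‖ ≤ C * ‖ξ‖ * ‖η‖)
    (h1 : ∀ n ξ ξ' η, φ n (ξ + ξ') η = φ n ξ η + φ n ξ' η)
    (h2 : ∀ n (c : ℂ) ξ η, φ n (c • ξ) η = conj c * φ n ξ η)
    (h3 : ∀ n ξ η η', φ n ξ (η + η') = φ n ξ η + φ n ξ η')
    (h4 : ∀ n (c : ℂ) ξ η, φ n ξ (c • η) = c * φ n ξ η) :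
    ∃ T : Op ι, ‖T‖ ≤ C ∧ ∀ ξ η l, Tendsto (fun n => φ n ξ η) atTop (𝓝 l) → ⟪ξ, T η⟫_ℂ = l := by
  classical
  let U : Ultrafilter ℕ := Ultrafilter.of atTop
  have hU : (U : Filter ℕ) ≤ atTop := Ultrafilter.of_le atTop
  have h5 : ∀ ξ η, ∃ l : ℂ, ‖l‖ ≤ C * ‖ξ‖ * ‖η‖ ∧ Tendsto (fun n => φ n ξ η) U (𝓝 l) := by
    intro ξ η
    have hc : IsCompact (Metric.closedBall (0 : ℂ) (C * ‖ξ‖ * ‖η‖)) := isCompact_closedBall _ _
    have h6 : ((U.map fun n => φ n ξ η : Ultrafilter ℂ) : Filter ℂ) ≤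
        𝓟 (Metric.closedBall (0 : ℂ) (C * ‖ξ‖ * ‖η‖)) := by
      rw [le_principal_iff]
      refine Filter.mem_map.2 (Filter.univ_mem' fun n => ?_)
      change φ n ξ η ∈ Metric.closedBall (0 : ℂ) (C * ‖ξ‖ * ‖η‖)
      rw [mem_closedBall_zero_iff]
      exact hb n ξ η
    obtain ⟨l, hl, hl'⟩ := hc.ultrafilter_le_nhds _ h6
    exact ⟨l, mem_closedBall_zero_iff.1 hl, hl'⟩
  choose L hL hL' using h5
  let Bf : L2 ι →L⋆[ℂ] L2 ι →L[ℂ] ℂ :=
    LinearMap.mkContinuous₂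
      (LinearMap.mk₂'ₛₗ (starRingEnd ℂ) (RingHom.id ℂ) (fun u y => L u y)
        (fun u u' y => by
          refine tendsto_nhds_unique (hL' (u + u') y) ?_
          simp only [h1]
          exact (hL' u y).add (hL' u' y))
        (fun r u y => by
          refine tendsto_nhds_unique (hL' (r • u) y) ?_
          simp only [h2]
          exact (hL' u y).const_mul (conj r))
        (fun u y y' => by
          refine tendsto_nhds_unique (hL' u (y + y')) ?_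
          simp only [h3]
          exact (hL' u y).add (hL' u y'))
        (fun r u y => by
          refine tendsto_nhds_unique (hL' u (r • y)) ?_
          simp only [h4]
          exact (hL' u y).const_mul r))
      C (fun u y => hL u y)
  have hBf : ∀ u y, Bf u y = L u y := fun _ _ => rfl
  refine ⟨(InnerProductSpace.continuousLinearMapOfBilin Bf)†, ?_, fun ξ η l hl => ?_⟩
  · refine ContinuousLinearMap.opNorm_le_bound _ hC fun η => ?_
    set T : Op ι := (InnerProductSpace.continuousLinearMapOfBilin Bf)† with hT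
    have h6 : ∀ ξ, ⟪ξ, T η⟫_ℂ = L ξ η := fun ξ => by
      rw [hT, ContinuousLinearMap.adjoint_inner_right,
        InnerProductSpace.continuousLinearMapOfBilin_apply]
      rfl
    by_cases h0 : T η = 0
    · rw [h0, norm_zero]
      positivity
    · have h7 : 0 < ‖T η‖ := norm_pos_iff.2 h0
      have h8 : ‖T η‖ * ‖T η‖ ≤ C * ‖T η‖ * ‖η‖ := by
        have h9 := hL (T η) η
        rw [← h6, inner_self_eq_norm_sq_to_K, norm_pow, pow_two] at h9
        simpa using h9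
      refine le_of_mul_le_mul_left ?_ h7
      calc ‖T η‖ * ‖T η‖ ≤ C * ‖T η‖ * ‖η‖ := h8
        _ = ‖T η‖ * (C * ‖η‖) := by ring
  · rw [ContinuousLinearMap.adjoint_inner_right,
      InnerProductSpace.continuousLinearMapOfBilin_apply]
    exact tendsto_nhds_unique (hL' ξ η) (hl.mono_left hU)

/-- the row TLA -/
theorem tla : TlaStmt := by
  intro ι V hV a C s hs haC h
  have hC : 0 ≤ C := (norm_nonneg a).trans haC
  have hz : ∀ z : ℂ, 0 ≤ z.im → z.im ≤ s → ∃ T : Op ι, ‖T‖ ≤ C ∧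
      ∀ f g : ℂ → L2 ι, Traj V f → Traj V g → ⟪f 0, T (g 0)⟫_ℂ = ⟪f (-(conj z)), a (g (-z))⟫_ℂ := by
    intro z h0 h1
    obtain ⟨T, hT, hT'⟩ := exists_limit (fun n ξ η => Fn hV a n z ξ η) C hC
      (fun n ξ η => by
        have h2 := bound hV a C s hs haC h (hV.traj_gauss n ξ) (hV.traj_gauss n η) h0 h1
        refine h2.trans ?_
        have h3 : ∀ ζ : L2 ι, ‖hV.gauss n 0 ζ‖ ≤ ‖ζ‖ := fun ζ => by
          have h4 := (hV.gauss n 0).le_of_opNorm_le (hV.norm_gauss_zero_le n) ζ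
          rwa [one_mul] at h4
        exact mul_le_mul (mul_le_mul_of_nonneg_left (h3 ξ) hC) (h3 η) (norm_nonneg _)
          (by positivity))
      (fun n ξ ξ' η => by rw [Fn, Fn, Fn, map_add, inner_add_left])
      (fun n c ξ η => by rw [Fn, Fn, map_smul, inner_smul_left])
      (fun n ξ η η' => by rw [Fn, Fn, Fn, map_add, map_add, inner_add_right])
      (fun n c ξ η => by rw [Fn, Fn, map_smul, map_smul, inner_smul_right])
    refine ⟨T, hT, fun f g hf hg => hT' _ _ _ ?_⟩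
    have h5 : ∀ n, Fn hV a n z (f 0) (g 0) =
        ⟪hV.gauss n 0 (f (-(conj z))), a (hV.gauss n 0 (g (-z)))⟫_ℂ := fun n => by
      rw [Fn, hV.gauss_traj hf n _ 0, hV.gauss_traj hg n _ 0, add_zero, add_zero]
    simp only [h5]
    exact (hV.tendsto_gauss _).inner
      ((a.continuous.tendsto _).comp (hV.tendsto_gauss _))
  classical
  refine ⟨fun z => if hh : 0 ≤ z.im ∧ z.im ≤ s then Classical.choose (hz z hh.1 hh.2) else 0,
    fun z h0 h1 => ?_⟩
  have h2 := Classical.choose_spec (hz z h0 h1)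
  simp only [dif_pos (And.intro h0 h1)]
  exact h2

end Pool.Agent.MQG.H34
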